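import Mathlib

set_option autoImplicit false

/-!
# A skew-symmetric matrix with no parity-admissible linear ordering

`B₀` is the `9 × 9` skew-symmetric matrix with entries `±1` off the diagonal of an explicit
tournament.  For every linear ordering of the indices some oriented chordless `3`-cycle has
exactly two positive entries in the matrix determined by the ordering.
-/

namespace Pool.Agent.Results.MP_f0f309_al.NoAdmissibleOrder

/-- `B` is skew-symmetrizable: `B D` is skew-symmetric for a diagonal matrix `D` with positive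
integer diagonal entries. -/
def SkewSymmetrizable {n : ℕ} (B : Matrix (Fin n) (Fin n) ℤ) : Prop :=
  ∃ d : Fin n → ℤ, (∀ i, 0 < d i) ∧
    (B * Matrix.diagonal d).transpose = -(B * Matrix.diagonal d)

open Classical in
/-- The matrix determined by the ordering `r` (`r i j` means `i ≺ j`). -/
noncomputable def gim {n : ℕ} (B : Matrix (Fin n) (Fin n) ℤ) (r : Fin n → Fin n → Prop) :
    Matrix (Fin n) (Fin n) ℤ :=
  fun i j => if i = j then 2 else if r i j then B i j else -B i j

/-- `c 0, c 1, …, c (m-1), c 0` is a chordless cycle in `B` (`m ≥ 3` distinct indices, indexed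
by `ZMod m`, two of them joined by a nonzero entry exactly when they are consecutive). -/
def IsChordlessCycle {n : ℕ} (B : Matrix (Fin n) (Fin n) ℤ) (m : ℕ) (c : ZMod m → Fin n) : Prop :=
  3 ≤ m ∧ Function.Injective c ∧
    ∀ j k : ZMod m, j ≠ k → (B (c j) (c k) ≠ 0 ↔ (j - k = 1 ∨ j - k = -1))

/-- All the entries along the cycle have the same sign. -/
def IsOriented {n : ℕ} (B : Matrix (Fin n) (Fin n) ℤ) (m : ℕ) (c : ZMod m → Fin n) : Prop :=
  (∀ j, 0 < B (c j) (c (j + 1))) ∨ (∀ j, B (c j) (c (j + 1)) < 0)

/-- The number of indices `j` such that the entry of `A` at `(c j, c (j+1))` is positive. -/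
noncomputable def posCount {n : ℕ} (A : Matrix (Fin n) (Fin n) ℤ) (m : ℕ) (c : ZMod m → Fin n) :
    ℕ :=
  {j : ZMod m | 0 < A (c j) (c (j + 1))}.ncard

/-- Out-neighbours in the tournament. -/
def outs : Fin 9 → List (Fin 9) :=
  ![[2, 4, 5, 7], [0, 4, 6, 8], [1, 3, 6, 8], [0, 1, 6, 7], [2, 3, 5], [1, 2, 3, 7],
    [0, 4, 5, 7], [1, 2, 4, 8], [0, 3, 4, 5, 6]]

/-- The arcs of the tournament. -/
def T (x y : Fin 9) : Bool := (outs x).contains y

/-- The entries of `B₀`: `-1` at the arcs of the tournament, `1` at the reversed arcs. -/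
def b₀ (i j : Fin 9) : ℤ := if T i j then -1 else if T j i then 1 else 0

/-- The skew-symmetric matrix of the tournament. -/
def B₀ : Matrix (Fin 9) (Fin 9) ℤ := Matrix.of b₀

theorem B₀_neg {i j : Fin 9} (h : T i j = true) : B₀ i j = -1 := by
  simp [B₀, b₀, h]

theorem b₀_ne : ∀ i j : Fin 9, i ≠ j → b₀ i j ≠ 0 := by
  decide

theorem b₀_skew : ∀ i j : Fin 9, b₀ j i = -b₀ i j := by
  decide

theorem T_total : ∀ {i j : Fin 9}, i ≠ j → (T i j = true ∧ T j i = false) ∨
    (T j i = true ∧ T i j = false) := by
  decide

theorem T_irrefl : ∀ {i : Fin 9}, T i i = false := by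
  decide

/-- The auxiliary check for `good`. -/
def check (z : Fin 9) : List (Fin 9) → Bool
  | [] => true
  | y :: l => (l.all fun x => !(T x y && T y z) || T x z) && check z l

/-- For `z` before `y` before `x` in the list, `x → y → z` implies `x → z`. -/
def good : List (Fin 9) → Bool
  | [] => true
  | z :: l => check z l && good l

/-- All insertions of `x` into a list. -/
def ins (x : Fin 9) : List (Fin 9) → List (List (Fin 9))
  | [] => [[x]]
  | a :: l => (x :: a :: l) :: (ins x l).map (fun m => a :: m)

/-- The good orderings of the elements of a list. -/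
def orders : List (Fin 9) → List (List (Fin 9))
  | [] => [[]]
  | x :: s => ((orders s).flatMap (ins x)).filter good

theorem orders_empty : orders [8, 7, 6, 5, 4, 3, 2, 1, 0] = [] := by decide

section
variable {r : Fin 9 → Fin 9 → Prop}

theorem check_of (H : ∀ z y x, r z y → r y x → T x y = true → T y z = true → T x z = true)
    (z : Fin 9) : ∀ l : List (Fin 9), (∀ y ∈ l, r z y) → l.Pairwise r → check z l = true := by
  intro l
  induction l with
  | nil => intro _ _; rfl
  | cons y l ih =>
    intro h1 h2
    rw [List.pairwise_cons] at h2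
    simp only [check, Bool.and_eq_true, List.all_eq_true]
    refine ⟨fun x hx => ?_, ih (fun w hw => h1 w (List.mem_cons_of_mem _ hw)) h2.2⟩
    have := H z y x (h1 y List.mem_cons_self) (h2.1 x hx)
    cases hxy : T x y <;> cases hyz : T y z <;> simp_all

theorem good_of (H : ∀ z y x, r z y → r y x → T x y = true → T y z = true → T x z = true) :
    ∀ l : List (Fin 9), l.Pairwise r → good l = true := by
  intro l
  induction l with
  | nil => intro _; rfl
  | cons z l ih =>
    intro h
    rw [List.pairwise_cons] at h
    simp only [good, Bool.and_eq_true]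
    exact ⟨check_of H z l h.1 h.2, ih h.2⟩

theorem exists_insert [IsStrictTotalOrder (Fin 9) r] (x : Fin 9) :
    ∀ l : List (Fin 9), x ∉ l → l.Pairwise r →
      ∃ m ∈ ins x l, m.Pairwise r ∧ ∀ y, y ∈ m ↔ y = x ∨ y ∈ l := by
  intro l
  induction l with
  | nil => intro _ _; exact ⟨[x], by simp [ins], by simp, by simp⟩
  | cons a l ih =>
    intro hx hl
    rw [List.pairwise_cons] at hl
    have hxa : x ≠ a := fun h => hx (h ▸ List.mem_cons_self)
    have hxl : x ∉ l := fun h => hx (List.mem_cons_of_mem _ h)
    rcases trichotomous_of r x a with h | h | h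
    · refine ⟨x :: a :: l, by simp [ins], ?_, by simp⟩
      rw [List.pairwise_cons]
      refine ⟨fun y hy => ?_, List.pairwise_cons.2 hl⟩
      rcases List.mem_cons.1 hy with rfl | hy
      · exact h
      · exact _root_.trans h (hl.1 y hy)
    · exact absurd h hxa
    · obtain ⟨m, hm, hp, hmem⟩ := ih hxl hl.2
      refine ⟨a :: m, ?_, ?_, ?_⟩
      · simp only [ins, List.mem_cons, List.mem_map]
        exact Or.inr ⟨m, hm, rfl⟩
      · rw [List.pairwise_cons]
        refine ⟨fun y hy => ?_, hp⟩
        rcases (hmem y).1 hy with rfl | hy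
        · exact h
        · exact hl.1 y hy
      · intro y
        simp only [List.mem_cons, hmem]
        tauto

theorem mem_orders [IsStrictTotalOrder (Fin 9) r]
    (H : ∀ z y x, r z y → r y x → T x y = true → T y z = true → T x z = true) :
    ∀ s : List (Fin 9), s.Nodup → ∃ l ∈ orders s, l.Pairwise r ∧ ∀ y, y ∈ l ↔ y ∈ s := by
  intro s
  induction s with
  | nil => intro _; exact ⟨[], by simp [orders], by simp, by simp⟩
  | cons x s ih =>
    intro hs
    rw [List.nodup_cons] at hs
    obtain ⟨l, hl, hp, hmem⟩ := ih hs.2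
    obtain ⟨m, hm, hp', hmem'⟩ := exists_insert (r := r) x l (fun h => hs.1 ((hmem x).1 h)) hp
    refine ⟨m, ?_, hp', fun y => ?_⟩
    · simp only [orders, List.mem_filter, List.mem_flatMap]
      exact ⟨⟨l, hl, hm⟩, good_of H m hp'⟩
    · rw [hmem', hmem, List.mem_cons]

end

/-- The cycle through three given indices. -/
def tri (x y z : Fin 9) : ZMod 3 → Fin 9 := fun j => if j = 0 then x else if j = 1 then y else z

theorem tri_chordless {x y z : Fin 9} (h1 : T x y = true) (h2 : T y z = true)
    (h3 : T z x = true) : IsChordlessCycle B₀ 3 (tri x y z) := by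
  have a : ∀ {i j : Fin 9}, T i j = true → i ≠ j := by
    intro i j h e
    rw [e, T_irrefl] at h
    exact absurd h (by decide)
  have hB : ∀ i j : Fin 9, i ≠ j → B₀ i j ≠ 0 := b₀_ne
  have inj : Function.Injective (tri x y z) := by
    have hxy := a h1
    have hyz := a h2
    have hzx := a h3
    have : ∀ i j : ZMod 3, i ≠ j → tri x y z i ≠ tri x y z j := by
      have e0 : tri x y z 0 = x := rfl
      have e1 : tri x y z 1 = y := rfl
      have e2 : tri x y z 2 = z := rfl
      intro i j hij
      fin_cases i <;> fin_cases j <;> first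
        | exact absurd rfl hij
        | (show x ≠ y; exact hxy)
        | (show y ≠ z; exact hyz)
        | (show z ≠ x; exact hzx)
        | (show y ≠ x; exact hxy.symm)
        | (show z ≠ y; exact hyz.symm)
        | (show x ≠ z; exact hzx.symm)
    intro i j hij
    by_contra hne
    exact this i j hne hij
  refine ⟨le_refl 3, inj, ?_⟩
  intro j k hjk
  refine ⟨fun _ => ?_, fun _ => hB _ _ (fun h => hjk (inj h))⟩
  have key : ∀ j k : ZMod 3, j ≠ k → (j - k = 1 ∨ j - k = -1) := by decide
  exact key j k hjk

theorem tri_oriented {x y z : Fin 9} (h1 : T x y = true) (h2 : T y z = true)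
    (h3 : T z x = true) : IsOriented B₀ 3 (tri x y z) := by
  right
  intro j
  fin_cases j
  · show B₀ x y < 0
    rw [B₀_neg h1]; decide
  · show B₀ y z < 0
    rw [B₀_neg h2]; decide
  · show B₀ z x < 0
    rw [B₀_neg h3]; decide

/-- **Negative answer to Q1.**  For the `9 × 9` skew-symmetric matrix `B₀` and every linear
ordering `r` of the indices some oriented chordless cycle has an even number of positive entries
in the matrix determined by `r`. -/
theorem result : SkewSymmetrizable B₀ ∧
    ∀ r : Fin 9 → Fin 9 → Prop, IsStrictTotalOrder (Fin 9) r →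
      ∃ (m : ℕ) (c : ZMod m → Fin 9), IsChordlessCycle B₀ m c ∧ IsOriented B₀ m c ∧
        Even (posCount (gim B₀ r) m c) := by
  refine ⟨⟨fun _ => 1, fun _ => one_pos, ?_⟩, ?_⟩
  · rw [show (Matrix.diagonal (fun _ => (1 : ℤ)) : Matrix (Fin 9) (Fin 9) ℤ) = 1 from
      Matrix.diagonal_one, Matrix.mul_one]
    ext i j
    exact b₀_skew i j
  intro r hr
  by_contra hcon
  have H : ∀ z y x, r z y → r y x → T x y = true → T y z = true → T x z = true := by
    intro z y x hzy hyx hxy hyz
    by_contra hxz
    have hzx' : r z x := _root_.trans hzy hyx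
    have hne : x ≠ z := fun h => irrefl_of r z (h ▸ hzx')
    have hzx : T z x = true := by
      rcases T_total hne with h | h
      · exact absurd h.1 hxz
      · exact h.1
    apply hcon
    refine ⟨3, tri x y z, tri_chordless hxy hyz hzx, tri_oriented hxy hyz hzx, ?_⟩
    have hset : {j : ZMod 3 | 0 < gim B₀ r (tri x y z j) (tri x y z (j + 1))} = {0, 1} := by
      ext j
      simp only [Set.mem_ofPred_eq, Set.mem_insert_iff, Set.mem_singleton_iff]
      have n1 : ¬ r x y := fun h => asymm_of r h hyx
      have n2 : ¬ r y z := fun h => asymm_of r h hzy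
      have nxy : x ≠ y := fun h => irrefl_of r y (h ▸ hyx)
      have nyz : y ≠ z := fun h => irrefl_of r z (h ▸ hzy)
      fin_cases j
      · refine ⟨fun _ => Or.inl rfl, fun _ => ?_⟩
        show 0 < gim B₀ r x y
        simp [gim, nxy, n1, B₀_neg hxy]
      · refine ⟨fun _ => Or.inr rfl, fun _ => ?_⟩
        show 0 < gim B₀ r y z
        simp [gim, nyz, n2, B₀_neg hyz]
      · constructor
        · intro h
          exfalso
          change 0 < gim B₀ r z x at h
          simp [gim, hne.symm, hzx', B₀_neg hzx] at h
        · have e0 : ¬ (2 : ZMod 3) = 0 := by decide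
          have e1 : ¬ (2 : ZMod 3) = 1 := by decide
          rintro (h | h)
          · exact absurd h e0
          · exact absurd h e1
    rw [posCount, hset, Set.ncard_pair (by decide)]
    exact ⟨1, rfl⟩
  obtain ⟨l, hl, _⟩ := mem_orders (r := r) H [8, 7, 6, 5, 4, 3, 2, 1, 0] (by decide)
  rw [orders_empty] at hl
  exact absurd hl List.not_mem_nil

end Pool.Agent.Results.MP_f0f309_al.NoAdmissibleOrder
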